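import Pool.Graph.R_seed8.Helper386.D5V.Helper386_FF_Div

/-!
# Correspondences modulo rational equivalence, in terms of function fields

`S` and `X` are complex varieties of the same dimension `d`, with the function fields `L` and `K`, and
`F` is an algebraically closed field of transcendence degree `d` over `ℂ`, for example an algebraic
closure of `K`.

A closed subvariety `Z` of `S × X` of dimension `d` which dominates `S` and `X` has a function field
that is generated by the images of `L` and `K`, and it is given by a pair of embeddings
`(λ, τ)` of `L` and `K` in `F`, uniquely up to automorphisms of `F / ℂ`. So the group of the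
`d`-dimensional cycles on `S × X` (with rational coefficients), modulo the cycles which are
supported on `D × X` or `S × D'` with proper closed subsets `D`, `D'`, is a subspace of the space of
functions of `λ` and `τ`: a cycle is given by its multiplicity at the subvariety of `(λ, τ)`.
-/

set_option autoImplicit false

open FF

namespace Pool.Agent.H15.EM

section

variable {K L M F : Type} [Field K] [Field L] [Field M] [Field F] [Algebra ℂ K] [Algebra ℂ L]
  [Algebra ℂ M] [Algebra ℂ F]

/-- A prime divisor `P` of (a model of) the variety `W` with the function field `M`, that is, a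
discrete valuation, and an embedding of its residue field, that is, of the function field of the
prime divisor, in `F`, in the form of a homomorphism from the valuation ring to `F` which is zero on
the maximal ideal. -/
structure DPt (M F : Type) [Field M] [Algebra ℂ M] [Field F] where
  P : Place ℂ M
  h : P.O →+* F
  ker : ∀ f : P.O, 0 < P.ord f → h f = 0

/-- The rational map `W → S`, given by `α : L → M`, maps the prime divisor dominantly to `S`, and the
map is given on the function fields by `λ : L → F`. -/
def DPt.Over (p : DPt M F) (α : L →ₐ[ℂ] M) (lam : L →ₐ[ℂ] F) : Prop :=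
  ∀ l : L, ∃ hl : α l ∈ p.P.O, p.h ⟨α l, hl⟩ = lam l

variable (F) in
/-- The image in `S × X` of the divisor of the rational function `f` on `W`, under the rational map
`W → S × X` given by `α : L → M` and `β : K → M`: the multiplicity at the subvariety of `(λ, τ)` is the
sum of the orders `ord_P f` over the prime divisors `P` of `W` which are mapped onto it, each one
counted as many times as there are embeddings of its function field in `F` over `λ` and `τ` (this is
the degree of the map of `P` onto its image). -/
noncomputable def cyc (α : L →ₐ[ℂ] M) (β : K →ₐ[ℂ] M) (f : M) :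
    (L →ₐ[ℂ] F) → (K →ₐ[ℂ] F) → ℚ :=
  fun lam tau => ∑ᶠ p ∈ {p : DPt M F | p.Over α lam ∧ p.Over β tau}, (p.P.ord f : ℚ)

/-- Rational equivalence of `d`-dimensional cycles on `S × X`, with rational coefficients, modulo the
cycles supported on `D × X` or `S × D'` with proper closed subsets `D`, `D'`: the vector space generated
by the images of the divisors of rational functions on the varieties `W` of dimension `d + 1` with
rational maps to `S` and `X`. -/
def Rat (L K F : Type) [Field L] [Field K] [Field F] [Algebra ℂ L] [Algebra ℂ K] [Algebra ℂ F]
    (d : ℕ) : Submodule ℚ ((L →ₐ[ℂ] F) → (K →ₐ[ℂ] F) → ℚ) :=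
  Submodule.span ℚ {c | ∃ (M : Type) (_ : Field M) (_ : Algebra ℂ M) (α : L →ₐ[ℂ] M)
    (β : K →ₐ[ℂ] M) (f : M), Algebra.EssFiniteType ℂ M ∧
      Algebra.trdeg ℂ M = (d + 1 : ℕ) ∧ f ≠ 0 ∧ c = cyc F α β f}

/-- The cycle `c` on `S × X` is zero, modulo rational equivalence and cycles supported on `D × X` or
`S × D'`. -/
def IsZero {L K F : Type} [Field L] [Field K] [Field F] [Algebra ℂ L] [Algebra ℂ K] [Algebra ℂ F]
    (d : ℕ) (c : (L →ₐ[ℂ] F) → (K →ₐ[ℂ] F) → ℚ) : Prop := c ∈ Rat L K F d

open Classical in
variable (F) in
/-- The graph of the rational map `S → X` given by `x : K → L`. -/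
noncomputable def graph (x : K →ₐ[ℂ] L) : (L →ₐ[ℂ] F) → (K →ₐ[ℂ] F) → ℚ :=
  fun lam tau => if lam.comp x = tau then 1 else 0

variable (K F) in
/-- The class of the diagonal of `X × X`, that is, the class of the generic point of `X`, is zero:
with rational coefficients, the diagonal is rationally equivalent to a cycle supported on
`D × X ∪ X × D'` with proper closed subsets `D`, `D'`. -/
def Degenerate (d : ℕ) : Prop := IsZero d (graph F (AlgHom.id ℂ K))

/-- The degree of a generically finite rational map. -/
noncomputable def deg (u : K →ₐ[ℂ] L) : ℕ := @Module.finrank K L _ _ u.toRingHom.toAlgebra.toModule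

end

end Pool.Agent.H15.EM
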