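import Pool.Agent.H15.EM.Defs

/-!
# Finiteness
-/

set_option autoImplicit false
set_option linter.style.haveILetI false

open FF

namespace Pool.Agent.H15.EM

variable {K L M F : Type} [Field K] [Field L] [Field M] [Field F] [Algebra ℂ K] [Algebra ℂ L]
  [Algebra ℂ M] [Algebra ℂ F]

theorem trdeg_one {k L A : Type} [Field k] [Field L] [Field A] [Algebra k L] [Algebra L A]
    [Algebra k A] [IsScalarTower k L A] {m : ℕ} (hA : Algebra.trdeg k A = (m + 1 : ℕ))
    (hL : Algebra.trdeg k L = (m : ℕ)) : Algebra.trdeg L A = 1 := by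
  have h1 := trdeg_add_eq k L (A := A)
  rw [hA, hL] at h1
  have h3 : Algebra.trdeg L A < Cardinal.aleph0 := by
    by_contra hcon
    push Not at hcon
    have h4 : (m : Cardinal.{0}) + Algebra.trdeg L A = Algebra.trdeg L A :=
      Cardinal.add_eq_right hcon ((Cardinal.natCast_lt_aleph0 (n := m)).le.trans hcon)
    rw [h4] at h1
    rw [h1] at hcon
    exact absurd hcon (not_le.2 Cardinal.natCast_lt_aleph0)
  obtain ⟨n, hn⟩ := Cardinal.lt_aleph0.1 h3
  rw [hn] at h1 ⊢
  have h4 : m + n = m + 1 := by exact_mod_cast h1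
  have h5 : n = 1 := by omega
  rw [h5, Nat.cast_one]

namespace DPt

variable {p : DPt M F} {α : L →ₐ[ℂ] M} {lam : L →ₐ[ℂ] F}

theorem Over.ord_eq (hp : p.Over α lam) {l : L} (hl : l ≠ 0) : p.P.ord (α l) = 0 := by
  obtain ⟨h1, h2⟩ := hp l
  have h3 : α l ≠ 0 := fun h => hl ((map_eq_zero α.toRingHom).mp h)
  have h4 : 0 ≤ p.P.ord (α l) := (p.P.reg_iff h3).1 h1
  by_contra hne
  have h5 : p.h ⟨α l, h1⟩ = 0 := p.ker _ (by
    show 0 < p.P.ord (α l)
    omega)
  rw [h5] at h2
  exact hl ((map_eq_zero lam.toRingHom).mp h2.symm)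

/-- the place over `L` -/
def Over.place (hp : p.Over α lam) :
    letI := α.toRingHom.toAlgebra
    Place L M :=
  letI := α.toRingHom.toAlgebra
  { ord := p.P.ord
    ord_zero := p.P.ord_zero
    ord_mul := p.P.ord_mul
    ord_add := p.P.ord_add
    ord_const := fun hc => hp.ord_eq hc
    surj := p.P.surj }

theorem Over.unique (hp : p.Over α lam) {lam' : L →ₐ[ℂ] F} (hp' : p.Over α lam') : lam = lam' := by
  ext l
  rw [← (hp l).choose_spec, ← (hp' l).choose_spec]

omit [Algebra ℂ F] in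
theorem isLocalHom (p : DPt M F) : IsLocalHom p.h := by
  refine ⟨fun a ha => ?_⟩
  by_contra hcon
  have h1 : (a : M) = 0 ∨ 0 < p.P.ord (a : M) := by
    by_contra h2
    push Not at h2
    refine hcon ((p.P.isUnit_O_iff a.2).2 ⟨h2.1, ?_⟩)
    have h3 := (p.P.reg_iff h2.1).1 a.2
    omega
  rcases h1 with h1 | h1
  · have h2 : a = 0 := Subtype.ext h1
    rw [h2, map_zero] at ha
    exact not_isUnit_zero ha
  · rw [p.ker a h1] at ha
    exact not_isUnit_zero ha

end DPt

/-- the embeddings of the residue field over `λ` -/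
theorem finite_emb {d : ℕ} [Algebra.EssFiniteType ℂ M] (hL : Algebra.trdeg ℂ L = (d : ℕ))
    (hM : Algebra.trdeg ℂ M = (d + 1 : ℕ)) (α : L →ₐ[ℂ] M) (lam : L →ₐ[ℂ] F) (P : Place ℂ M) :
    {h : P.O →+* F | ∃ hk : ∀ f : P.O, 0 < P.ord f → h f = 0,
      (DPt.mk P h hk).Over α lam}.Finite := by
  letI : Algebra L M := α.toRingHom.toAlgebra
  haveI : IsScalarTower ℂ L M := IsScalarTower.of_algebraMap_eq fun z => (α.commutes z).symm
  haveI : CharZero L := charZero_of_injective_algebraMap (algebraMap ℂ L).injective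
  haveI : IsFF L M := ⟨Algebra.EssFiniteType.of_comp ℂ L M, trdeg_one hM hL⟩
  rcases Set.eq_empty_or_nonempty {h : P.O →+* F | ∃ hk : ∀ f : P.O, 0 < P.ord f → h f = 0,
      (DPt.mk P h hk).Over α lam} with he | ⟨h₀, hk₀, hh₀⟩
  · rw [he]; exact Set.finite_empty
  let Q : Place L M := DPt.Over.place hh₀
  letI : Algebra L F := lam.toRingHom.toAlgebra
  have hfin : Finite (Q.RF →ₐ[L] F) := inferInstance
  refine Set.Finite.subset (Set.finite_range fun g : Q.RF →ₐ[L] F =>
    ((g.toRingHom : P.RF →+* F).comp P.resHom)) ?_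
  rintro h ⟨hk, hh⟩
  haveI := (DPt.mk P h hk).isLocalHom
  let h' : P.RF →+* F := IsLocalRing.ResidueField.lift h
  have hh' : ∀ f : P.O, h' (P.resHom f) = h f := fun f => IsLocalRing.ResidueField.lift_residue_apply h f
  refine ⟨{ (h' : Q.RF →+* F) with commutes' := fun l => ?_ }, ?_⟩
  · obtain ⟨h1, h2⟩ := hh l
    show h' (P.red (α l)) = lam l
    rw [P.red_of_reg h1, hh']
    exact h2
  · exact RingHom.ext hh'

theorem finite_pts {d : ℕ} [Algebra.EssFiniteType ℂ M] (hL : Algebra.trdeg ℂ L = (d : ℕ))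
    (hM : Algebra.trdeg ℂ M = (d + 1 : ℕ)) (α : L →ₐ[ℂ] M) (lam : L →ₐ[ℂ] F) (f : M) :
    {p : DPt M F | p.Over α lam ∧ p.P.ord f ≠ 0}.Finite := by
  letI : Algebra L M := α.toRingHom.toAlgebra
  haveI : IsScalarTower ℂ L M := IsScalarTower.of_algebraMap_eq fun z => (α.commutes z).symm
  haveI : CharZero L := charZero_of_injective_algebraMap (algebraMap ℂ L).injective
  haveI : IsFF L M := ⟨Algebra.EssFiniteType.of_comp ℂ L M, trdeg_one hM hL⟩
  by_cases hf : Transcendental L f
  · obtain ⟨S, hS, -⟩ := zeros (k := L) (K := M) hf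
    obtain ⟨T, hT, -⟩ := poles (k := L) (K := M) hf
    have h1 : {P : Place ℂ M | ∃ (h : P.O →+* F) (hk : ∀ f : P.O, 0 < P.ord f → h f = 0),
        (DPt.mk P h hk).Over α lam ∧ P.ord f ≠ 0}.Finite := by
      refine Set.Finite.of_finite_image (f := fun P => P.ord) ?_ ?_
      · refine Set.Finite.subset ((S.finite_toSet.union T.finite_toSet).image fun Q => Q.ord) ?_
        rintro _ ⟨P, ⟨h, hk, hh, hne⟩, rfl⟩
        refine ⟨DPt.Over.place hh, ?_, rfl⟩
        rcases lt_or_gt_of_ne hne with h2 | h2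
        · exact Or.inr ((hT _).2 h2)
        · exact Or.inl ((hS _).2 h2)
      · intro P _ Q _ hPQ
        exact Place.ext hPQ
    have h2 : {p : (P : Place ℂ M) × (P.O →+* F) | ∃ hk : ∀ f : p.1.O, 0 < p.1.ord f → p.2 f = 0,
        (DPt.mk p.1 p.2 hk).Over α lam ∧ p.1.ord f ≠ 0}.Finite := by
      refine Set.Finite.subset (h1.biUnion fun P _ =>
        (finite_emb hL hM α lam P).image fun h =>
          (⟨P, h⟩ : (P : Place ℂ M) × (P.O →+* F))) ?_
      rintro ⟨P, h⟩ ⟨hk, h2, h3⟩
      simp only [Set.mem_iUnion]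
      exact ⟨P, ⟨h, hk, h2, h3⟩, h, ⟨hk, h2⟩, rfl⟩
    refine Set.Finite.of_finite_image (f := fun p : DPt M F =>
      (⟨p.P, p.h⟩ : (P : Place ℂ M) × (P.O →+* F))) (h2.subset ?_) ?_
    · rintro _ ⟨p, ⟨h3, h4⟩, rfl⟩
      exact ⟨p.ker, h3, h4⟩
    · rintro ⟨P, h, hk⟩ _ ⟨P', h', hk'⟩ _ heq
      simp only [Sigma.mk.injEq] at heq
      obtain ⟨rfl, heq⟩ := heq
      obtain rfl := eq_of_heq heq
      rfl
  · convert Set.finite_empty
    rw [Set.eq_empty_iff_forall_notMem]
    rintro p ⟨h2, h3⟩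
    exact hf ((DPt.Over.place h2).transcendental_of_ord_ne h3)

/-- a generically finite rational map has finitely many points in the fibres -/
theorem finite_ext {u : K →ₐ[ℂ] L} (hu : u.toRingHom.Finite) (mu : K →ₐ[ℂ] F) :
    {lam : L →ₐ[ℂ] F | lam.comp u = mu}.Finite := by
  letI : Algebra K L := u.toRingHom.toAlgebra
  haveI : FiniteDimensional K L := hu
  letI : Algebra K F := mu.toRingHom.toAlgebra
  have hfin : Finite (L →ₐ[K] F) := inferInstance
  haveI : IsScalarTower ℂ K L := IsScalarTower.of_algebraMap_eq fun z => (u.commutes z).symm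
  haveI : IsScalarTower ℂ K F := IsScalarTower.of_algebraMap_eq fun z => (mu.commutes z).symm
  refine Set.Finite.subset (Set.finite_range fun g : L →ₐ[K] F => g.restrictScalars ℂ) ?_
  intro lam hlam
  refine ⟨{ lam.toRingHom with commutes' := fun l => ?_ }, ?_⟩
  · exact DFunLike.congr_fun hlam l
  · rfl

theorem ncard_ext [IsAlgClosed F] {u : K →ₐ[ℂ] L} (hu : u.toRingHom.Finite) (mu : K →ₐ[ℂ] F) :
    {lam : L →ₐ[ℂ] F | lam.comp u = mu}.ncard = deg u := by
  letI : Algebra K L := u.toRingHom.toAlgebra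
  haveI : FiniteDimensional K L := hu
  letI : Algebra K F := mu.toRingHom.toAlgebra
  haveI : IsScalarTower ℂ K L := IsScalarTower.of_algebraMap_eq fun z => (u.commutes z).symm
  haveI : IsScalarTower ℂ K F := IsScalarTower.of_algebraMap_eq fun z => (mu.commutes z).symm
  haveI : CharZero K := charZero_of_injective_algebraMap (algebraMap ℂ K).injective
  have h1 : Fintype.card (L →ₐ[K] F) = Module.finrank K L := AlgHom.card K L F
  have h2 : Nat.card {lam : L →ₐ[ℂ] F | lam.comp u = mu} = Nat.card (L →ₐ[K] F) := by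
    refine Nat.card_congr
      { toFun := fun lam =>
          { lam.1.toRingHom with commutes' := fun l => DFunLike.congr_fun lam.2 l }
        invFun := fun g => ⟨g.restrictScalars ℂ, by
          ext l
          exact g.commutes l⟩
        left_inv := fun lam => rfl
        right_inv := fun g => rfl }
  show Nat.card {lam : L →ₐ[ℂ] F | lam.comp u = mu} = deg u
  rw [h2, Nat.card_eq_fintype_card, h1]
  rfl

theorem deg_pos {u : K →ₐ[ℂ] L} (hu : u.toRingHom.Finite) : 0 < deg u := by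
  letI : Algebra K L := u.toRingHom.toAlgebra
  haveI : FiniteDimensional K L := hu
  exact Module.finrank_pos (R := K) (M := L)

end Pool.Agent.H15.EM
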