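import Pool.Agent.H15.EM.Main

/-!
# Relations with coefficients in a group ring
-/

set_option autoImplicit false
set_option linter.style.haveILetI false

open FF

namespace Pool.Agent.H15.EM

variable {K L F G : Type} [Field K] [Field L] [Field F] [Algebra ℂ K] [Algebra ℂ L] [Algebra ℂ F]
  [Group G]

/-- The class of the point `x` of `X` with values in `L` multiplied by the element `C` of the group
ring of a group `G` which acts on `K` (that is, `G` acts on `X` by birational automorphisms): the sum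
of the graphs of the rational maps `x g`, with the coefficients of `C`. -/
noncomputable def comb (F : Type) [Field F] [Algebra ℂ F] (θ : G →* (K ≃ₐ[ℂ] K)) (x : K →ₐ[ℂ] L) :
    MonoidAlgebra ℚ G →ₗ[ℚ] ((L →ₐ[ℂ] F) → (K →ₐ[ℂ] F) → ℚ) where
  toFun C := Finsupp.linearCombination ℚ (fun g => graph F (x.comp (θ g : K →ₐ[ℂ] K))) C.coeff
  map_add' C C' := by rw [MonoidAlgebra.coeff_add, map_add]
  map_smul' q C := by rw [MonoidAlgebra.coeff_smul, map_smul, RingHom.id_apply]

theorem comb_single (θ : G →* (K ≃ₐ[ℂ] K)) (x : K →ₐ[ℂ] L) (g : G) (q : ℚ) :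
    comb F θ x (MonoidAlgebra.single g q) = q • graph F (x.comp (θ g : K →ₐ[ℂ] K)) := by
  show Finsupp.linearCombination ℚ _ (MonoidAlgebra.single g q).coeff = _
  rw [MonoidAlgebra.coeff_single, Finsupp.linearCombination_single]

/-- `C^* C`, where `C^*` is obtained from `C` by replacing each `g` by its inverse -/
noncomputable def gram (C : MonoidAlgebra ℚ G) : MonoidAlgebra ℚ G :=
  ∑ h ∈ C.coeff.support, ∑ g ∈ C.coeff.support,
    MonoidAlgebra.single (h⁻¹ * g) (C.coeff h * C.coeff g)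

theorem finite_equiv (e : K ≃ₐ[ℂ] K) : ((e : K →ₐ[ℂ] K)).toRingHom.Finite :=
  RingHom.Finite.of_surjective _ e.surjective

theorem T_equiv (θ : G →* (K ≃ₐ[ℂ] K)) (h g : G) :
    T F (θ h : K →ₐ[ℂ] K) (θ g : K →ₐ[ℂ] K) = graph F (θ (h⁻¹ * g) : K →ₐ[ℂ] K) := by
  classical
  funext rho tau
  unfold T graph
  have h1 : ∀ mu : K →ₐ[ℂ] F, mu.comp (θ h : K →ₐ[ℂ] K) = rho ↔
      mu = rho.comp (θ h⁻¹ : K →ₐ[ℂ] K) := by
    intro mu
    constructor
    · rintro rfl
      ext a
      simp only [AlgHom.comp_apply, AlgEquiv.coe_toAlgHom]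
      rw [← AlgEquiv.mul_apply, ← map_mul, mul_inv_cancel, map_one, AlgEquiv.one_apply]
    · rintro rfl
      ext a
      simp only [AlgHom.comp_apply, AlgEquiv.coe_toAlgHom]
      rw [← AlgEquiv.mul_apply, ← map_mul, inv_mul_cancel, map_one, AlgEquiv.one_apply]
  have h2 : (rho.comp (θ h⁻¹ : K →ₐ[ℂ] K)).comp (θ g : K →ₐ[ℂ] K) =
      rho.comp (θ (h⁻¹ * g) : K →ₐ[ℂ] K) := by
    ext a
    simp only [AlgHom.comp_apply, AlgEquiv.coe_toAlgHom, map_mul, AlgEquiv.mul_apply]
  have h3 : {mu : K →ₐ[ℂ] F | mu.comp (θ h : K →ₐ[ℂ] K) = rho ∧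
      mu.comp (θ g : K →ₐ[ℂ] K) = tau} =
      if rho.comp (θ (h⁻¹ * g) : K →ₐ[ℂ] K) = tau then {rho.comp (θ h⁻¹ : K →ₐ[ℂ] K)} else ∅ := by
    ext mu
    rw [Set.mem_ofPred_eq, h1]
    split_ifs with hc
    · rw [Set.mem_singleton_iff]
      constructor
      · exact fun h => h.1
      · rintro rfl
        exact ⟨rfl, h2.trans hc⟩
    · constructor
      · rintro ⟨rfl, h4⟩
        exact hc (h2.symm.trans h4)
      · intro h4
        exact h4.elim
  rw [h3]
  split_ifs <;> simp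

theorem tr_graph (θ : G →* (K ≃ₐ[ℂ] K)) (k : G) :
    tr (graph F (θ k : K →ₐ[ℂ] K)) = graph F (θ k⁻¹ : K →ₐ[ℂ] K) := by
  have h1 := T_equiv (F := F) θ k 1
  have h2 := T_equiv (F := F) θ 1 k
  rw [mul_one] at h1
  rw [inv_one, one_mul] at h2
  rw [← h1, ← h2, tr_T]

/-- **The relation between the coefficients.** -/
theorem gram_mem [IsAlgClosed F] {d : ℕ} (hL : Algebra.trdeg ℂ L = (d : ℕ))
    (θ : G →* (K ≃ₐ[ℂ] K)) {x y : K →ₐ[ℂ] L} (hx : x.toRingHom.Finite) (hy : y.toRingHom.Finite)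
    (C C' : MonoidAlgebra ℚ G) (h : comb F θ x C - comb F θ y C' ∈ Rat L K F d) :
    comb F θ (AlgHom.id ℂ K) ((deg x : ℚ) • gram C - (deg y : ℚ) • gram C') ∈ Rat K K F d := by
  classical
  have hfx : ∀ {z : K →ₐ[ℂ] L}, z.toRingHom.Finite → ∀ g : G,
      (z.comp (θ g : K →ₐ[ℂ] K)).toRingHom.Finite := fun hz g =>
    RingHom.Finite.comp hz (finite_equiv (θ g))
  have hT : ∀ (z : K →ₐ[ℂ] L) (hz : z.toRingHom.Finite) (g k : G),
      T F (z.comp (θ g : K →ₐ[ℂ] K)) (z.comp (θ k : K →ₐ[ℂ] K)) =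
        (deg z : ℚ) • graph F (θ (g⁻¹ * k) : K →ₐ[ℂ] K) := by
    intro z hz g k
    rw [T_comp hz (finite_equiv (θ g)), T_equiv]
  have hpush : ∀ {z : K →ₐ[ℂ] L} (hz : z.toRingHom.Finite) (w : K →ₐ[ℂ] L)
      (A : MonoidAlgebra ℚ G), pushLin hz (comb F θ w A) =
        ∑ g ∈ A.coeff.support, A.coeff g • T F z (w.comp (θ g : K →ₐ[ℂ] K)) := by
    intro z hz w A
    show pushLin hz (Finsupp.linearCombination ℚ _ A.coeff) = _
    rw [Finsupp.linearCombination_apply, Finsupp.sum, map_sum]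
    refine Finset.sum_congr rfl fun g _ => ?_
    rw [map_smul, push_graph]
  have hid : ∀ k : G, graph F ((AlgHom.id ℂ K).comp (θ k : K →ₐ[ℂ] K)) =
      graph F (θ k : K →ₐ[ℂ] K) := fun k => by rw [AlgHom.id_comp]
  have hgram : ∀ A : MonoidAlgebra ℚ G, comb F θ (AlgHom.id ℂ K) (gram A) =
      ∑ k ∈ A.coeff.support, ∑ g ∈ A.coeff.support,
        (A.coeff k * A.coeff g) • graph F (θ (k⁻¹ * g) : K →ₐ[ℂ] K) := by
    intro A
    unfold gram
    rw [map_sum]
    refine Finset.sum_congr rfl fun k _ => ?_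
    rw [map_sum]
    refine Finset.sum_congr rfl fun g _ => ?_
    rw [comb_single, hid]
  -- the two relations
  have e1 : ∑ k ∈ C.coeff.support, C.coeff k •
      pushLin (hfx hx k) (comb F θ x C - comb F θ y C') ∈ Rat K K F d :=
    Submodule.sum_mem _ fun k _ => Submodule.smul_mem _ _ (push_rat hL _ h)
  have e2 : ∑ k ∈ C'.coeff.support, C'.coeff k •
      tr (pushLin (hfx hy k) (comb F θ x C - comb F θ y C')) ∈ Rat K K F d :=
    Submodule.sum_mem _ fun k _ => Submodule.smul_mem _ _ (tr_rat (push_rat hL _ h))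
  have e3 := Submodule.add_mem _ e1 e2
  convert e3 using 1
  rw [map_sub, map_smul, map_smul, hgram, hgram]
  simp only [map_sub, hpush, map_sum, map_smul, tr_T, smul_sub, Finset.sum_sub_distrib,
    Finset.smul_sum, smul_smul, hT x hx, hT y hy, tr_graph, mul_inv_rev, inv_inv]
  have e4 : ∑ k ∈ C.coeff.support, ∑ g ∈ C'.coeff.support, (C.coeff k * C'.coeff g) •
      T F (x.comp (θ k : K →ₐ[ℂ] K)) (y.comp (θ g : K →ₐ[ℂ] K)) =
      ∑ k ∈ C'.coeff.support, ∑ g ∈ C.coeff.support, (C'.coeff k * C.coeff g) •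
      T F (x.comp (θ g : K →ₐ[ℂ] K)) (y.comp (θ k : K →ₐ[ℂ] K)) := by
    rw [Finset.sum_comm]
    refine Finset.sum_congr rfl fun k _ => Finset.sum_congr rfl fun g _ => ?_
    rw [mul_comm]
  rw [e4]
  have e5 : ∑ k ∈ C'.coeff.support, ∑ g ∈ C'.coeff.support, (C'.coeff k * (C'.coeff g * (deg y : ℚ))) •
      graph F (θ (g⁻¹ * k) : K →ₐ[ℂ] K) =
      ∑ k ∈ C'.coeff.support, ∑ g ∈ C'.coeff.support, ((deg y : ℚ) * (C'.coeff k * C'.coeff g)) •
      graph F (θ (k⁻¹ * g) : K →ₐ[ℂ] K) := by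
    rw [Finset.sum_comm]
    refine Finset.sum_congr rfl fun k _ => Finset.sum_congr rfl fun g _ => ?_
    congr 1
    ring
  rw [e5]
  have e6 : ∑ k ∈ C.coeff.support, ∑ g ∈ C.coeff.support, (C.coeff k * (C.coeff g * (deg x : ℚ))) •
      graph F (θ (k⁻¹ * g) : K →ₐ[ℂ] K) =
      ∑ k ∈ C.coeff.support, ∑ g ∈ C.coeff.support, ((deg x : ℚ) * (C.coeff k * C.coeff g)) •
      graph F (θ (k⁻¹ * g) : K →ₐ[ℂ] K) := by
    refine Finset.sum_congr rfl fun k _ => Finset.sum_congr rfl fun g _ => ?_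
    congr 1
    ring
  rw [e6]
  abel

/-! ## The ideal of the relations -/

theorem graph_mul_left [IsAlgClosed F] (θ : G →* (K ≃ₐ[ℂ] K)) (g : G) (u : MonoidAlgebra ℚ G) :
    comb F θ (AlgHom.id ℂ K) (MonoidAlgebra.single g 1 * u) =
      pushLin (finite_equiv (θ g⁻¹)) (comb F θ (AlgHom.id ℂ K) u) := by
  have h1 : ∀ k : G, ∀ q : ℚ, comb F θ (AlgHom.id ℂ K) (MonoidAlgebra.single g 1 *
      MonoidAlgebra.single k q) =
      pushLin (finite_equiv (θ g⁻¹)) (comb F θ (AlgHom.id ℂ K) (MonoidAlgebra.single k q)) := by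
    intro k q
    rw [MonoidAlgebra.single_mul_single, comb_single, comb_single, map_smul, push_graph,
      AlgHom.id_comp, AlgHom.id_comp, T_equiv, inv_inv, one_mul]
  induction u using MonoidAlgebra.induction_linear with
  | zero => rw [mul_zero, map_zero, map_zero]
  | add a b ha hb => rw [mul_add, map_add, map_add, map_add, ha, hb]
  | single k q => exact h1 k q

theorem graph_mul_right [IsAlgClosed F] (θ : G →* (K ≃ₐ[ℂ] K)) (g : G) (u : MonoidAlgebra ℚ G) :
    comb F θ (AlgHom.id ℂ K) (u * MonoidAlgebra.single g 1) =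
      tr (pushLin (finite_equiv (θ g)) (tr (comb F θ (AlgHom.id ℂ K) u))) := by
  have h1 : ∀ k : G, ∀ q : ℚ, comb F θ (AlgHom.id ℂ K) (MonoidAlgebra.single k q *
      MonoidAlgebra.single g 1) =
      tr (pushLin (finite_equiv (θ g)) (tr (comb F θ (AlgHom.id ℂ K)
        (MonoidAlgebra.single k q)))) := by
    intro k q
    rw [MonoidAlgebra.single_mul_single, comb_single, comb_single, map_smul, map_smul, map_smul,
      AlgHom.id_comp, AlgHom.id_comp, tr_graph, push_graph, T_equiv, tr_graph, mul_one,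
      mul_inv_rev, inv_inv, inv_inv]
  induction u using MonoidAlgebra.induction_linear with
  | zero => rw [zero_mul, map_zero, map_zero, map_zero, map_zero]
  | add a b ha hb => rw [add_mul, map_add, map_add, map_add, map_add, map_add, ha, hb]
  | single k q => exact h1 k q

/-- **One representation at a time.** -/
theorem reps [IsAlgClosed F] {d : ℕ} (hK : Algebra.trdeg ℂ K = (d : ℕ)) (θ : G →* (K ≃ₐ[ℂ] K))
    (h : ∀ (V : Type) [AddCommGroup V] [Module (MonoidAlgebra ℚ G) V]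
      [IsSimpleModule (MonoidAlgebra ℚ G) V], ∃ u : MonoidAlgebra ℚ G,
        comb F θ (AlgHom.id ℂ K) u ∈ Rat K K F d ∧ ∃ v : V, u • v ≠ 0) :
    graph F (AlgHom.id ℂ K) ∈ Rat K K F d := by
  set R := MonoidAlgebra ℚ G
  have hsmul : ∀ (g : G) (q : ℚ), (MonoidAlgebra.single g q : R) = q • MonoidAlgebra.single g 1 := by
    intro g q
    rw [MonoidAlgebra.smul_single, smul_eq_mul, mul_one]
  have hleft : ∀ a u : R, comb F θ (AlgHom.id ℂ K) u ∈ Rat K K F d →
      comb F θ (AlgHom.id ℂ K) (a * u) ∈ Rat K K F d := by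
    intro a u hu
    induction a using MonoidAlgebra.induction_linear with
    | zero => rw [zero_mul, map_zero]; exact Submodule.zero_mem _
    | add a b ha hb => rw [add_mul, map_add]; exact Submodule.add_mem _ ha hb
    | single k q =>
      rw [hsmul, smul_mul_assoc, map_smul, graph_mul_left]
      exact Submodule.smul_mem _ _ (push_rat hK _ hu)
  have hright : ∀ a u : R, comb F θ (AlgHom.id ℂ K) u ∈ Rat K K F d →
      comb F θ (AlgHom.id ℂ K) (u * a) ∈ Rat K K F d := by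
    intro a u hu
    induction a using MonoidAlgebra.induction_linear with
    | zero => rw [mul_zero, map_zero]; exact Submodule.zero_mem _
    | add a b ha hb => rw [mul_add, map_add]; exact Submodule.add_mem _ ha hb
    | single k q =>
      rw [hsmul, mul_smul_comm, map_smul, graph_mul_right]
      exact Submodule.smul_mem _ _ (tr_rat (push_rat hK _ (tr_rat hu)))
  let I : Ideal R :=
    { carrier := {u | comb F θ (AlgHom.id ℂ K) u ∈ Rat K K F d}
      add_mem' := fun ha hb => by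
        rw [Set.mem_ofPred_eq, map_add]
        exact Submodule.add_mem _ ha hb
      zero_mem' := by
        rw [Set.mem_ofPred_eq, map_zero]
        exact Submodule.zero_mem _
      smul_mem' := fun a u hu => hleft a u hu }
  have hI : I = ⊤ := by
    by_contra hne
    obtain ⟨J, hJ, hIJ⟩ := Ideal.exists_le_maximal I hne
    haveI : IsSimpleModule R (R ⧸ J) := by
      rw [isSimpleModule_iff_isCoatom]
      exact hJ.out
    obtain ⟨u, hu, v, hv⟩ := h (R ⧸ J)
    apply hv
    obtain ⟨r, rfl⟩ := Submodule.Quotient.mk_surjective J v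
    rw [← Submodule.Quotient.mk_smul, Submodule.Quotient.mk_eq_zero]
    exact hIJ (hright r u hu)
  have h1 : (1 : R) ∈ I := by rw [hI]; trivial
  have h2 : comb F θ (AlgHom.id ℂ K) (1 : R) ∈ Rat K K F d := h1
  rw [MonoidAlgebra.one_def, comb_single, one_smul, map_one] at h2
  exact h2

/-- **Two maps.** -/
theorem two [IsAlgClosed F] {d : ℕ} (hL : Algebra.trdeg ℂ L = (d : ℕ)) {x y : K →ₐ[ℂ] L}
    (hx : x.toRingHom.Finite) (hy : y.toRingHom.Finite) {m m' : ℚ}
    (h : m • graph F x - m' • graph F y ∈ Rat L K F d)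
    (hne : (deg x : ℚ) * m ^ 2 ≠ (deg y : ℚ) * m' ^ 2) :
    graph F (AlgHom.id ℂ K) ∈ Rat K K F d := by
  have e1 := push_rat hL hx h
  have e2 := tr_rat (push_rat hL hy h)
  simp only [map_sub, map_smul, push_graph, tr_T, T_self hx, T_self hy] at e1 e2
  have e3 := Submodule.add_mem _ (Submodule.smul_mem _ m e1) (Submodule.smul_mem _ m' e2)
  have htr : tr (graph F (AlgHom.id ℂ K)) = graph F (AlgHom.id ℂ K) := by
    classical
    funext rho tau
    show graph F (AlgHom.id ℂ K) tau rho = graph F (AlgHom.id ℂ K) rho tau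
    unfold graph
    rw [AlgHom.comp_id, AlgHom.comp_id]
    simp only [eq_comm]
  have e4 : m • (m • (deg x : ℚ) • graph F (AlgHom.id ℂ K) - m' • T F x y) +
      m' • (m • T F x y - m' • (deg y : ℚ) • graph F (AlgHom.id ℂ K)) =
      ((deg x : ℚ) * m ^ 2 - (deg y : ℚ) * m' ^ 2) • graph F (AlgHom.id ℂ K) := by
    module
  rw [htr] at e3
  rw [e4] at e3
  have hne' : (deg x : ℚ) * m ^ 2 - (deg y : ℚ) * m' ^ 2 ≠ 0 := sub_ne_zero.2 hne
  have e5 := (Rat K K F d).smul_mem ((deg x : ℚ) * m ^ 2 - (deg y : ℚ) * m' ^ 2)⁻¹ e3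
  rwa [smul_smul, inv_mul_cancel₀ hne', one_smul] at e5

end Pool.Agent.H15.EM
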