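import Pool.Agent.H15.EM.Push

/-!
# Linear relations between rationally equivalent generically finite maps
-/

set_option autoImplicit false
set_option linter.style.haveILetI false

open FF Polynomial

namespace Pool.Agent.H15.EM

/-! ## A lemma on polynomials -/

theorem bezout {n : ℕ} {P Q : ℚ[X]} (hn : 1 ≤ n) (hP : P.natDegree = n) (hQ : Q.natDegree ≤ n)
    (h : IsCoprime P Q) : ∃ U V : ℚ[X], U.natDegree ≤ n ∧ V.natDegree ≤ n ∧
      U * P + V * Q = X ^ n := by
  obtain ⟨A, B, hAB⟩ := h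
  have hP0 : P ≠ 0 := by
    rintro rfl
    simp at hP
    omega
  set V := (X ^ n * B) % P with hV
  set U := X ^ n * A + (X ^ n * B) / P * Q with hU
  have h1 : P * ((X ^ n * B) / P) + V = X ^ n * B := EuclideanDomain.div_add_mod _ _
  have h2 : U * P + V * Q = X ^ n := by
    have h3 : V = X ^ n * B - P * ((X ^ n * B) / P) := eq_sub_of_add_eq' h1
    rw [h3, hU]
    calc _ = X ^ n * (A * P + B * Q) := by ring
      _ = _ := by rw [hAB, mul_one]
  have hVd : V.natDegree ≤ n := by
    have h4 : V.degree < P.degree := EuclideanDomain.mod_lt _ hP0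
    have h5 := natDegree_le_natDegree h4.le
    omega
  have hVd' : V.natDegree ≤ n - 1 := by
    by_cases hV0 : V = 0
    · rw [hV0]; simp
    have h4 : V.degree < P.degree := EuclideanDomain.mod_lt _ hP0
    have h5 := natDegree_lt_natDegree hV0 h4
    omega
  refine ⟨U, V, ?_, hVd, h2⟩
  by_cases hU0 : U = 0
  · rw [hU0]; simp
  have h6 : (U * P).natDegree = U.natDegree + n := by rw [natDegree_mul hU0 hP0, hP]
  have h7 : U * P = X ^ n - V * Q := by rw [← h2]; ring
  have h8 : (X ^ n - V * Q).natDegree ≤ 2 * n := by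
    refine (natDegree_sub_le _ _).trans (max_le ?_ ?_)
    · rw [natDegree_X_pow]; omega
    · exact natDegree_mul_le.trans (by omega)
  rw [h7] at h6
  omega

/-- the polynomials `P` and `t ^ n P(δ / t)` have no common roots if no product of two roots of `P`
is `δ` -/
theorem coprime_of_roots {n : ℕ} {c : ℕ → ℚ} (hc : c n ≠ 0) {a b : ℚ} (ha : a ≠ 0) (hb : b ≠ 0)
    (hroots : ∀ lam mu : ℂ, ∑ i ∈ Finset.range (n + 1), (c i : ℂ) * lam ^ i = 0 →
      ∑ i ∈ Finset.range (n + 1), (c i : ℂ) * mu ^ i = 0 → (a : ℂ) * (lam * mu) ≠ b) :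
    IsCoprime (∑ i ∈ Finset.range (n + 1), C (c i) * X ^ i)
      (∑ i ∈ Finset.range (n + 1), C (c i * (b / a) ^ i) * X ^ (n - i)) := by
  refine (isCoprime_iff_aeval_ne_zero_of_isAlgClosed ℚ ℂ _ _).2 ?_
  intro lam
  by_contra hcon
  push Not at hcon
  obtain ⟨h1, h2⟩ := hcon
  have hba : (b / a : ℚ) ≠ 0 := div_ne_zero hb ha
  simp only [map_sum, map_mul, aeval_C, map_pow, aeval_X, eq_ratCast] at h1 h2
  have hlam : lam ≠ 0 := by
    rintro rfl
    rw [Finset.sum_range_succ] at h2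
    have h3 : ∑ i ∈ Finset.range n, ((c i : ℂ) * ((b / a : ℚ) : ℂ) ^ i) * (0 : ℂ) ^ (n - i) = 0 := by
      refine Finset.sum_eq_zero fun i hi => ?_
      rw [Finset.mem_range] at hi
      rw [zero_pow (by omega), mul_zero]
    rw [h3, Nat.sub_self, pow_zero, mul_one, zero_add] at h2
    rcases mul_eq_zero.1 h2 with h4 | h4
    · exact hc (by exact_mod_cast h4)
    · exact pow_ne_zero n (by exact_mod_cast hba : ((b / a : ℚ) : ℂ) ≠ 0) h4
  set mu : ℂ := ((b / a : ℚ) : ℂ) / lam with hmu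
  have h3 : ∑ i ∈ Finset.range (n + 1), (c i : ℂ) * mu ^ i = 0 := by
    have h4 : lam ^ n * ∑ i ∈ Finset.range (n + 1), (c i : ℂ) * mu ^ i =
        ∑ i ∈ Finset.range (n + 1), ((c i : ℂ) * ((b / a : ℚ) : ℂ) ^ i) * lam ^ (n - i) := by
      rw [Finset.mul_sum]
      refine Finset.sum_congr rfl fun i hi => ?_
      rw [Finset.mem_range] at hi
      have h5 : lam ^ n = lam ^ (n - i) * lam ^ i := by
        rw [← pow_add]
        congr 1
        omega
      rw [h5, hmu, div_pow]
      field_simp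
    rw [h2] at h4
    exact (mul_eq_zero.1 h4).resolve_left (pow_ne_zero _ hlam)
  refine hroots lam mu h1 h3 ?_
  have ha' : (a : ℂ) ≠ 0 := by exact_mod_cast ha
  rw [hmu, mul_div_cancel₀ _ hlam]
  push_cast
  field_simp

/-! ## The theorem -/

section

variable {K L L₀ F : Type} [Field K] [Field L] [Field L₀] [Field F] [Algebra ℂ K] [Algebra ℂ L]
  [Algebra ℂ L₀] [Algebra ℂ F]

theorem finite_of_comp {u : L₀ →ₐ[ℂ] L} {s : K →ₐ[ℂ] L₀} (h : (u.comp s).toRingHom.Finite) :
    u.toRingHom.Finite ∧ s.toRingHom.Finite := by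
  refine ⟨RingHom.Finite.of_comp_finite h, ?_⟩
  letI : Algebra K L₀ := s.toRingHom.toAlgebra
  letI : Algebra K L := (u.comp s).toRingHom.toAlgebra
  haveI : FiniteDimensional K L := h
  let g : L₀ →ₗ[K] L :=
    { toFun := u
      map_add' := fun a b => map_add u a b
      map_smul' := fun a b => by
        rw [Algebra.smul_def, Algebra.smul_def, map_mul]
        rfl }
  exact FiniteDimensional.of_injective g (RingHom.injective u.toRingHom)

theorem main [IsAlgClosed F] {d n : ℕ} (hL : Algebra.trdeg ℂ L = (d : ℕ))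
    (x : ℕ → (K →ₐ[ℂ] L)) (hx : ∀ j ≤ n, (x j).toRingHom.Finite) (u v : L₀ →ₐ[ℂ] L)
    (s : ℕ → (K →ₐ[ℂ] L₀)) (hu : ∀ j < n, x j = u.comp (s j))
    (hv : ∀ j < n, x (j + 1) = v.comp (s j)) (c : ℕ → ℚ) (hc : c n ≠ 0)
    (hroots : ∀ lam mu : ℂ, ∑ i ∈ Finset.range (n + 1), (c i : ℂ) * lam ^ i = 0 →
      ∑ i ∈ Finset.range (n + 1), (c i : ℂ) * mu ^ i = 0 → (deg u : ℂ) * (lam * mu) ≠ deg v)
    (hrel : ∑ i ∈ Finset.range (n + 1), c i • graph F (x i) ∈ Rat L K F d) :
    graph F (AlgHom.id ℂ K) ∈ Rat K K F d := by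
  -- the relations
  have hE : ∀ j ≤ n, ∑ i ∈ Finset.range (n + 1), c i • T F (x j) (x i) ∈ Rat K K F d := by
    intro j hj
    have h1 := push_rat hL (hx j hj) hrel
    rw [map_sum] at h1
    simp only [map_smul, push_graph] at h1
    exact h1
  have hfin : ∀ q : ℚ, q ≠ 0 → q • T F (x 0) (x 0) ∈ Rat K K F d →
      graph F (AlgHom.id ℂ K) ∈ Rat K K F d := by
    intro q hq h
    rw [T_self (hx 0 (Nat.zero_le n)), smul_smul] at h
    have h2 : q * (deg (x 0) : ℚ) ≠ 0 :=
      mul_ne_zero hq (by exact_mod_cast (deg_pos (hx 0 (Nat.zero_le n))).ne')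
    have h3 := (Rat K K F d).smul_mem (q * (deg (x 0) : ℚ))⁻¹ h
    rwa [smul_smul, inv_mul_cancel₀ h2, one_smul] at h3
  rcases Nat.eq_zero_or_pos n with rfl | hn
  · have h1 := hE 0 le_rfl
    simp only [zero_add, Finset.range_one, Finset.sum_singleton] at h1
    exact hfin _ hc h1
  have hu0 := finite_of_comp (u := u) (s := s 0) (by rw [← hu 0 hn]; exact hx 0 hn.le)
  have hv0 := finite_of_comp (u := v) (s := s 0) (by rw [← hv 0 hn]; exact hx 1 hn)
  have hs : ∀ j < n, (s j).toRingHom.Finite := fun j hj =>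
    (finite_of_comp (u := u) (s := s j) (by rw [← hu j hj]; exact hx j hj.le)).2
  have ha : (deg u : ℚ) ≠ 0 := by exact_mod_cast (deg_pos hu0.1).ne'
  have hb : (deg v : ℚ) ≠ 0 := by exact_mod_cast (deg_pos hv0.1).ne'
  set δ : ℚ := (deg v : ℚ) / (deg u : ℚ) with hδ
  have hδ0 : δ ≠ 0 := div_ne_zero hb ha
  have hshift : ∀ j < n, ∀ i < n, T F (x (j + 1)) (x (i + 1)) = δ • T F (x j) (x i) := by
    intro j hj i hi
    rw [hu j hj, hu i hi, hv j hj, hv i hi, T_comp hu0.1 (hs j hj), T_comp hv0.1 (hs j hj),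
      smul_smul, hδ, div_mul_cancel₀ _ ha]
  have hT1 : ∀ j k, j + k ≤ n → T F (x j) (x (j + k)) = δ ^ j • T F (x 0) (x k) := by
    intro j
    induction j with
    | zero => intro k _; rw [zero_add, pow_zero, one_smul]
    | succ j ih =>
      intro k hk
      have h1 : j + 1 + k = j + k + 1 := by ring
      rw [h1, hshift j (by omega) (j + k) (by omega), ih k (by omega), smul_smul, pow_succ,
        mul_comm]
  have hT2 : ∀ j k, j + k ≤ n → T F (x (j + k)) (x j) = δ ^ j • T F (x k) (x 0) := by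
    intro j
    induction j with
    | zero => intro k _; rw [zero_add, pow_zero, one_smul]
    | succ j ih =>
      intro k hk
      have h1 : j + 1 + k = j + k + 1 := by ring
      rw [h1, hshift (j + k) (by omega) j (by omega), ih k (by omega), smul_smul, pow_succ,
        mul_comm]
  -- the sequence
  set w : ℕ → (K →ₐ[ℂ] F) → (K →ₐ[ℂ] F) → ℚ := fun m =>
    if n ≤ m then T F (x 0) (x (m - n)) else (δ ^ (n - m))⁻¹ • T F (x (n - m)) (x 0) with hw
  have hTw : ∀ j ≤ n, ∀ i ≤ n, T F (x j) (x i) = δ ^ j • w (n + i - j) := by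
    intro j hj i hi
    rcases le_or_gt j i with hij | hij
    · obtain ⟨k, rfl⟩ := Nat.exists_eq_add_of_le hij
      rw [hT1 j k hi, hw]
      have h1 : n ≤ n + (j + k) - j := by omega
      have h2 : n + (j + k) - j - n = k := by omega
      simp only [if_pos h1, h2]
    · obtain ⟨k, rfl⟩ := Nat.exists_eq_add_of_le hij.le
      have hk : 0 < k := by omega
      rw [hT2 i k hj, hw]
      have h1 : ¬ n ≤ n + i - (i + k) := by omega
      have h2 : n - (n + i - (i + k)) = k := by omega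
      simp only [if_neg h1, h2]
      rw [smul_smul, pow_add, mul_assoc, mul_inv_cancel₀ (pow_ne_zero _ hδ0), mul_one]
  set Φ : ℚ[X] →ₗ[ℚ] ((K →ₐ[ℂ] F) → (K →ₐ[ℂ] F) → ℚ) :=
    (Polynomial.basisMonomials ℚ).constr ℚ w with hΦ
  have hΦX : ∀ m, Φ (X ^ m) = w m := by
    intro m
    have h1 : (X ^ m : ℚ[X]) = Polynomial.basisMonomials ℚ m := by
      rw [Polynomial.coe_basisMonomials, Polynomial.X_pow_eq_monomial]
    rw [h1, hΦ, Module.Basis.constr_basis]
  have hΦC : ∀ (q : ℚ) (m : ℕ), Φ (C q * X ^ m) = q • w m := by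
    intro q m
    rw [← hΦX m, ← Polynomial.smul_eq_C_mul, map_smul]
  set P : ℚ[X] := ∑ i ∈ Finset.range (n + 1), C (c i) * X ^ i with hP
  set Q : ℚ[X] := ∑ i ∈ Finset.range (n + 1), C (c i * δ ^ i) * X ^ (n - i) with hQ
  have hΦP : ∀ m ≤ n, Φ (X ^ m * P) ∈ Rat K K F d := by
    intro m hm
    have h1 := hE (n - m) (by omega)
    have h2 : ∑ i ∈ Finset.range (n + 1), c i • T F (x (n - m)) (x i) = δ ^ (n - m) • Φ (X ^ m * P) := by
      rw [hP, Finset.mul_sum, map_sum, Finset.smul_sum]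
      refine Finset.sum_congr rfl fun i hi => ?_
      rw [Finset.mem_range] at hi
      have h3 : X ^ m * (C (c i) * X ^ i) = C (c i) * X ^ (n + i - (n - m)) := by
        have h4 : n + i - (n - m) = m + i := by omega
        rw [h4, pow_add]
        ring
      rw [h3, hΦC, hTw (n - m) (by omega) i (by omega), smul_smul, smul_smul, mul_comm]
    rw [h2] at h1
    have h5 := (Rat K K F d).smul_mem (δ ^ (n - m))⁻¹ h1
    rwa [smul_smul, inv_mul_cancel₀ (pow_ne_zero _ hδ0), one_smul] at h5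
  have hΦQ : ∀ m ≤ n, Φ (X ^ m * Q) ∈ Rat K K F d := by
    intro m hm
    have h1 := tr_rat (hE m hm)
    have h2 : tr (∑ i ∈ Finset.range (n + 1), c i • T F (x m) (x i)) = Φ (X ^ m * Q) := by
      rw [hQ, Finset.mul_sum, map_sum, map_sum]
      refine Finset.sum_congr rfl fun i hi => ?_
      rw [Finset.mem_range] at hi
      have h3 : X ^ m * (C (c i * δ ^ i) * X ^ (n - i)) = C (c i * δ ^ i) * X ^ (n + m - i) := by
        have h4 : n + m - i = m + (n - i) := by omega
        rw [h4, pow_add]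
        ring
      rw [h3, hΦC, map_smul, tr_T, hTw i (by omega) m hm, smul_smul]
    rwa [h2] at h1
  have hmul : ∀ (A R : ℚ[X]), A.natDegree ≤ n → (∀ m ≤ n, Φ (X ^ m * R) ∈ Rat K K F d) →
      Φ (A * R) ∈ Rat K K F d := by
    intro A R hA hR
    rw [A.as_sum_range_C_mul_X_pow' (Nat.lt_succ_of_le hA), Finset.sum_mul, map_sum]
    refine Submodule.sum_mem _ fun m hm => ?_
    rw [Finset.mem_range] at hm
    rw [mul_assoc, ← Polynomial.smul_eq_C_mul, map_smul]
    exact Submodule.smul_mem _ _ (hR m (by omega))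
  have hcop : IsCoprime P Q := coprime_of_roots hc ha hb (by
    intro lam mu h1 h2
    have := hroots lam mu h1 h2
    push_cast
    exact this)
  have hPd : P.natDegree = n := by
    refine le_antisymm ?_ ?_
    · refine Polynomial.natDegree_sum_le_of_forall_le _ _ fun i hi => ?_
      rw [Finset.mem_range] at hi
      exact (Polynomial.natDegree_C_mul_X_pow_le _ _).trans (by omega)
    · refine Polynomial.le_natDegree_of_ne_zero ?_
      rw [hP, Polynomial.finsetSum_coeff, Finset.sum_eq_single n]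
      · rw [Polynomial.coeff_C_mul_X_pow, if_pos rfl]
        exact hc
      · intro i _ hi
        rw [Polynomial.coeff_C_mul_X_pow, if_neg (Ne.symm hi)]
      · intro h
        exact absurd (Finset.mem_range.2 (Nat.lt_succ_self n)) h
  have hQd : Q.natDegree ≤ n := by
    refine Polynomial.natDegree_sum_le_of_forall_le _ _ fun i hi => ?_
    exact (Polynomial.natDegree_C_mul_X_pow_le _ _).trans (by omega)
  obtain ⟨U, V, hU, hV, hUV⟩ := bezout hn hPd hQd hcop
  have h1 : Φ (X ^ n) ∈ Rat K K F d := by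
    rw [← hUV, map_add]
    exact Submodule.add_mem _ (hmul U P hU hΦP) (hmul V Q hV hΦQ)
  rw [hΦX, hw] at h1
  simp only [le_refl, if_true, Nat.sub_self] at h1
  exact hfin 1 one_ne_zero (by rwa [one_smul])

end

end Pool.Agent.H15.EM
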