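import Pool.Agent.H15.EM.Fin

/-!
# Push-forward and transposition
-/

set_option autoImplicit false
set_option linter.style.haveILetI false

open FF

namespace Pool.Agent.H15.EM

variable {K K' L M F : Type} [Field K] [Field K'] [Field L] [Field M] [Field F] [Algebra ℂ K]
  [Algebra ℂ K'] [Algebra ℂ L] [Algebra ℂ M] [Algebra ℂ F]

theorem DPt.Over.comp {p : DPt M F} {α : L →ₐ[ℂ] M} {lam : L →ₐ[ℂ] F} (hp : p.Over α lam)
    (x : K →ₐ[ℂ] L) : p.Over (α.comp x) (lam.comp x) := fun a => hp (x a)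

/-- points of `S` over the points of `X` -/
theorem DPt.exists_over {x : K →ₐ[ℂ] L} (hx : x.toRingHom.Finite) {p : DPt M F}
    {α : L →ₐ[ℂ] M} {rho : K →ₐ[ℂ] F} (hp : p.Over (α.comp x) rho) :
    ∃ lam : L →ₐ[ℂ] F, lam.comp x = rho ∧ p.Over α lam := by
  letI : Algebra K L := x.toRingHom.toAlgebra
  haveI : FiniteDimensional K L := hx
  letI : Algebra K M := (α.comp x).toRingHom.toAlgebra
  have hreg : ∀ l : L, p.P.Reg (α l) := by
    intro l
    have h1 : IsIntegral K l := Algebra.IsIntegral.isIntegral l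
    have h2 : IsIntegral K (α l) := by
      obtain ⟨q, hq, hq'⟩ := h1
      refine ⟨q, hq, ?_⟩
      have h3 : algebraMap K M = α.toRingHom.comp (algebraMap K L) := rfl
      rw [h3]
      have h4 := congrArg α.toRingHom hq'
      rw [map_zero, Polynomial.hom_eval₂] at h4
      exact h4
    exact p.P.reg_of_isIntegral (A := K) (fun a => (hp a).choose) h2
  have hcongr : ∀ {a b : p.P.O}, (a : M) = b → p.h a = p.h b := fun h =>
    congrArg p.h (Subtype.ext h)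
  refine ⟨{ toFun := fun l => p.h ⟨α l, hreg l⟩
            map_one' := by
              rw [← map_one p.h]
              exact hcongr (map_one α)
            map_mul' := fun a b => by
              rw [← map_mul p.h]
              exact hcongr (map_mul α a b)
            map_zero' := by
              rw [← map_zero p.h]
              exact hcongr (map_zero α)
            map_add' := fun a b => by
              rw [← map_add p.h]
              exact hcongr (map_add α a b)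
            commutes' := fun z => ?_ }, ?_, fun l => ⟨hreg l, rfl⟩⟩
  · obtain ⟨h1, h2⟩ := hp (algebraMap ℂ K z)
    rw [rho.commutes] at h2
    rw [← h2]
    refine hcongr ?_
    show α (algebraMap ℂ L z) = α (x (algebraMap ℂ K z))
    rw [x.commutes]
  · ext a
    obtain ⟨h1, h2⟩ := hp a
    exact h2

/-- push-forward in the first variable -/
noncomputable def push (x : K →ₐ[ℂ] L) (c : (L →ₐ[ℂ] F) → (K' →ₐ[ℂ] F) → ℚ) :
    (K →ₐ[ℂ] F) → (K' →ₐ[ℂ] F) → ℚ :=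
  fun rho tau => ∑ᶠ lam ∈ {lam : L →ₐ[ℂ] F | lam.comp x = rho}, c lam tau

theorem cyc_eq (α : L →ₐ[ℂ] M) (β : K →ₐ[ℂ] M) (f : M) (lam : L →ₐ[ℂ] F) (tau : K →ₐ[ℂ] F) :
    cyc F α β f lam tau =
      ∑ᶠ p ∈ {p : DPt M F | (p.Over α lam ∧ p.Over β tau) ∧ p.P.ord f ≠ 0}, (p.P.ord f : ℚ) := by
  unfold cyc
  rw [← finsum_mem_inter_support]
  refine finsum_mem_congr ?_ fun _ _ => rfl
  ext p
  simp only [Set.mem_inter_iff, Set.mem_ofPred_eq, Function.mem_support, ne_eq, Int.cast_eq_zero]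

theorem push_cyc {d : ℕ} [Algebra.EssFiniteType ℂ M] (hL : Algebra.trdeg ℂ L = (d : ℕ))
    (hM : Algebra.trdeg ℂ M = (d + 1 : ℕ)) {x : K →ₐ[ℂ] L} (hx : x.toRingHom.Finite)
    (α : L →ₐ[ℂ] M) (β : K' →ₐ[ℂ] M) (f : M) :
    push x (cyc F α β f) = cyc F (α.comp x) β f := by
  funext rho tau
  rw [cyc_eq]
  unfold push
  have h1 : {p : DPt M F | (p.Over (α.comp x) rho ∧ p.Over β tau) ∧ p.P.ord f ≠ 0} =
      ⋃ lam ∈ {lam : L →ₐ[ℂ] F | lam.comp x = rho},
        {p : DPt M F | (p.Over α lam ∧ p.Over β tau) ∧ p.P.ord f ≠ 0} := by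
    ext p
    simp only [Set.mem_iUnion, Set.mem_ofPred_eq, exists_prop]
    constructor
    · rintro ⟨⟨h1, h2⟩, h3⟩
      obtain ⟨lam, h4, h5⟩ := DPt.exists_over hx h1
      exact ⟨lam, h4, ⟨h5, h2⟩, h3⟩
    · rintro ⟨lam, rfl, ⟨h1, h2⟩, h3⟩
      exact ⟨⟨h1.comp x, h2⟩, h3⟩
  rw [h1, finsum_mem_biUnion]
  · refine finsum_mem_congr rfl fun lam _ => ?_
    rw [cyc_eq]
  · intro lam _ lam' _ hne
    rw [Function.onFun, Set.disjoint_left]
    rintro p ⟨⟨h1, -⟩, -⟩ ⟨⟨h2, -⟩, -⟩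
    exact hne (h1.unique h2)
  · exact finite_ext hx rho
  · intro lam _
    refine (finite_pts (F := F) hL hM α lam f).subset ?_
    rintro p ⟨⟨h1, -⟩, h3⟩
    exact ⟨h1, h3⟩

/-- push-forward as a linear map -/
noncomputable def pushLin {x : K →ₐ[ℂ] L} (hx : x.toRingHom.Finite) :
    ((L →ₐ[ℂ] F) → (K' →ₐ[ℂ] F) → ℚ) →ₗ[ℚ] ((K →ₐ[ℂ] F) → (K' →ₐ[ℂ] F) → ℚ) where
  toFun := push x
  map_add' c c' := by
    funext rho tau
    show (∑ᶠ lam ∈ {lam : L →ₐ[ℂ] F | lam.comp x = rho}, (c lam tau + c' lam tau)) =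
      push x c rho tau + push x c' rho tau
    rw [finsum_mem_add_distrib (finite_ext hx rho)]
    rfl
  map_smul' r c := by
    funext rho tau
    show (∑ᶠ lam ∈ {lam : L →ₐ[ℂ] F | lam.comp x = rho}, r * c lam tau) = r * push x c rho tau
    unfold push
    rw [finsum_mem_eq_finite_toFinset_sum _ (finite_ext hx rho),
      finsum_mem_eq_finite_toFinset_sum _ (finite_ext hx rho), Finset.mul_sum]

theorem push_rat {d : ℕ} (hL : Algebra.trdeg ℂ L = (d : ℕ)) {x : K →ₐ[ℂ] L}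
    (hx : x.toRingHom.Finite) {c : (L →ₐ[ℂ] F) → (K' →ₐ[ℂ] F) → ℚ} (hc : c ∈ Rat L K' F d) :
    pushLin hx c ∈ Rat K K' F d := by
  have h1 : Rat L K' F d ≤ (Rat K K' F d).comap (pushLin hx) := by
    refine Submodule.span_le.2 ?_
    rintro _ ⟨M, _, _, α, β, f, hM, hM', hf, rfl⟩
    refine Submodule.subset_span ⟨M, _, _, α.comp x, β, f, hM, hM', hf, ?_⟩
    exact push_cyc hL hM' hx α β f
  exact h1 hc

/-- transposition -/
def tr : ((L →ₐ[ℂ] F) → (K →ₐ[ℂ] F) → ℚ) →ₗ[ℚ] ((K →ₐ[ℂ] F) → (L →ₐ[ℂ] F) → ℚ) where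
  toFun c := fun tau lam => c lam tau
  map_add' _ _ := rfl
  map_smul' _ _ := rfl

theorem tr_rat {d : ℕ} {c : (L →ₐ[ℂ] F) → (K →ₐ[ℂ] F) → ℚ} (hc : c ∈ Rat L K F d) :
    tr c ∈ Rat K L F d := by
  have h1 : Rat L K F d ≤ (Rat K L F d).comap tr := by
    refine Submodule.span_le.2 ?_
    rintro _ ⟨M, _, _, α, β, f, hM, hM', hf, rfl⟩
    refine Submodule.subset_span ⟨M, _, _, β, α, f, hM, hM', hf, ?_⟩
    funext tau lam
    show cyc F α β f lam tau = cyc F β α f tau lam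
    unfold cyc
    simp only [and_comm]
  exact h1 hc

/-- the number of the points of `S` which are mapped to given points by two rational maps -/
noncomputable def T (F : Type) [Field F] [Algebra ℂ F] (x : K →ₐ[ℂ] L) (y : K' →ₐ[ℂ] L) :
    (K →ₐ[ℂ] F) → (K' →ₐ[ℂ] F) → ℚ :=
  fun rho tau => ({lam : L →ₐ[ℂ] F | lam.comp x = rho ∧ lam.comp y = tau}.ncard : ℚ)

theorem sum_ite_ncard {ι : Type} {s : Set ι} (hs : s.Finite) (q : ι → Prop) [DecidablePred q] :
    ∑ᶠ i ∈ s, (if q i then (1 : ℚ) else 0) = ({i | i ∈ s ∧ q i}.ncard : ℚ) := by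
  classical
  rw [finsum_mem_eq_finite_toFinset_sum _ hs, Finset.sum_boole]
  congr 1
  rw [Set.ncard_eq_toFinset_card _ (hs.subset fun i hi => hi.1)]
  congr 1
  ext i
  simp

theorem ncard_eq_sum {ι : Type} {s : Set ι} (hs : s.Finite) :
    ∑ᶠ _i ∈ s, (1 : ℚ) = (s.ncard : ℚ) := by
  classical
  have h := sum_ite_ncard hs fun _ => True
  simpa using h

theorem push_graph {x : K →ₐ[ℂ] L} (hx : x.toRingHom.Finite) (y : K' →ₐ[ℂ] L) :
    pushLin hx (graph F y) = T F x y := by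
  classical
  funext rho tau
  show (∑ᶠ lam ∈ {lam : L →ₐ[ℂ] F | lam.comp x = rho}, graph F y lam tau) = _
  unfold graph T
  rw [sum_ite_ncard (finite_ext hx rho)]
  rfl

theorem tr_T (x : K →ₐ[ℂ] L) (y : K' →ₐ[ℂ] L) : tr (T F x y) = T F y x := by
  funext tau rho
  show T F x y rho tau = T F y x tau rho
  unfold T
  simp only [and_comm]

theorem T_self [IsAlgClosed F] {x : K →ₐ[ℂ] L} (hx : x.toRingHom.Finite) :
    T F x x = (deg x : ℚ) • graph F (AlgHom.id ℂ K) := by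
  classical
  funext rho tau
  show T F x x rho tau = (deg x : ℚ) * graph F (AlgHom.id ℂ K) rho tau
  unfold T graph
  rw [AlgHom.comp_id]
  by_cases h : rho = tau
  · subst h
    simp only [and_self, if_true, mul_one]
    rw [ncard_ext hx]
  · rw [if_neg h, mul_zero]
    have h1 : {lam : L →ₐ[ℂ] F | lam.comp x = rho ∧ lam.comp x = tau} = ∅ := by
      rw [Set.eq_empty_iff_forall_notMem]
      rintro lam ⟨h1, h2⟩
      exact h (h1.symm.trans h2)
    rw [h1]
    simp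

theorem T_comp [IsAlgClosed F] {L₀ : Type} [Field L₀] [Algebra ℂ L₀] {u : L₀ →ₐ[ℂ] L}
    (hu : u.toRingHom.Finite) {s : K →ₐ[ℂ] L₀} (hs : s.toRingHom.Finite) (t : K' →ₐ[ℂ] L₀) :
    T F (u.comp s) (u.comp t) = (deg u : ℚ) • T F s t := by
  classical
  funext rho tau
  show T F (u.comp s) (u.comp t) rho tau = (deg u : ℚ) * T F s t rho tau
  unfold T
  have hfin : {mu : L₀ →ₐ[ℂ] F | mu.comp s = rho ∧ mu.comp t = tau}.Finite :=
    (finite_ext hs rho).subset fun mu hmu => hmu.1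
  have h1 : {lam : L →ₐ[ℂ] F | lam.comp (u.comp s) = rho ∧ lam.comp (u.comp t) = tau} =
      ⋃ mu ∈ {mu : L₀ →ₐ[ℂ] F | mu.comp s = rho ∧ mu.comp t = tau},
        {lam : L →ₐ[ℂ] F | lam.comp u = mu} := by
    ext lam
    simp only [Set.mem_iUnion, Set.mem_ofPred_eq, exists_prop]
    constructor
    · rintro ⟨h1, h2⟩
      exact ⟨lam.comp u, ⟨h1, h2⟩, rfl⟩
    · rintro ⟨mu, ⟨h1, h2⟩, rfl⟩
      exact ⟨h1, h2⟩
  have h2 : ((⋃ mu ∈ {mu : L₀ →ₐ[ℂ] F | mu.comp s = rho ∧ mu.comp t = tau},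
        {lam : L →ₐ[ℂ] F | lam.comp u = mu}).ncard : ℚ) =
      ∑ᶠ lam ∈ ⋃ mu ∈ {mu : L₀ →ₐ[ℂ] F | mu.comp s = rho ∧ mu.comp t = tau},
        {lam : L →ₐ[ℂ] F | lam.comp u = mu}, (1 : ℚ) := by
    rw [ncard_eq_sum (hfin.biUnion fun mu _ => finite_ext hu mu)]
  rw [h1, h2, finsum_mem_biUnion _ hfin fun mu _ => finite_ext hu mu]
  · have h3 : ∀ mu : L₀ →ₐ[ℂ] F, ∑ᶠ lam ∈ {lam : L →ₐ[ℂ] F | lam.comp u = mu}, (1 : ℚ) =
        (deg u : ℚ) := by
      intro mu
      rw [ncard_eq_sum (finite_ext hu mu), ncard_ext hu]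
    simp only [h3]
    rw [finsum_mem_eq_finite_toFinset_sum _ hfin, Finset.sum_const, nsmul_eq_mul,
      Set.ncard_eq_toFinset_card _ hfin, mul_comm]
  · intro mu _ mu' _ hne
    rw [Function.onFun, Set.disjoint_left]
    intro lam h1 h2
    exact hne (h1.symm.trans h2)

end Pool.Agent.H15.EM
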