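import Pool.Agent.H15.EM.Grp

/-!
# Relations with coefficients in a group ring: statement with representations
-/

set_option autoImplicit false
set_option linter.style.haveILetI false

open FF

namespace Pool.Agent.H15.EM

section

variable {K L F G V : Type} [Field K] [Field L] [Field F] [Algebra ℂ K] [Algebra ℂ L]
  [Algebra ℂ F] [Group G] [AddCommGroup V] [Module ℚ V]

/-- The class of the point `x` of `X` with values in `L` multiplied by the element `C` of the group
ring of a group `G` which acts on `K` (that is, `G` acts on `X` by birational automorphisms): the sum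
of the graphs of the rational maps `x g`, with the coefficients of `C`. -/
noncomputable def orb (F : Type) [Field F] [Algebra ℂ F] (θ : G →* (K ≃ₐ[ℂ] K)) (x : K →ₐ[ℂ] L)
    (C : G →₀ ℚ) (lam : L →ₐ[ℂ] F) (tau : K →ₐ[ℂ] F) : ℚ :=
  ∑ g ∈ C.support, C g * graph F (x.comp (θ g).toAlgHom) lam tau

/-- `[x] C` and `[y] C'` are rationally equivalent, modulo zero-cycles on a divisor of `X` -/
def Same (F : Type) [Field F] [Algebra ℂ F] (θ : G →* (K ≃ₐ[ℂ] K)) (d : ℕ) (x y : K →ₐ[ℂ] L)
    (C C' : G →₀ ℚ) : Prop :=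
  IsZero d fun lam tau => orb F θ x C lam tau - orb F θ y C' lam tau

/-- `ρ` is an irreducible representation -/
def Irred (ρ : G →* (V →ₗ[ℚ] V)) : Prop :=
  (∃ v : V, v ≠ 0) ∧ ∀ W : Submodule ℚ V, (∀ g, ∀ w ∈ W, ρ g w ∈ W) → W = ⊥ ∨ W = ⊤

/-- the action of `C^* C` on `V` -/
noncomputable def gramOn (ρ : G →* (V →ₗ[ℚ] V)) (C : G →₀ ℚ) (v : V) : V :=
  ∑ h ∈ C.support, ∑ g ∈ C.support, (C h * C g) • ρ (h⁻¹ * g) v

theorem orb_eq (θ : G →* (K ≃ₐ[ℂ] K)) (x : K →ₐ[ℂ] L) (C : G →₀ ℚ) :
    comb F θ x (MonoidAlgebra.ofCoeff C) = fun lam tau => orb F θ x C lam tau := by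
  funext lam tau
  show (Finsupp.linearCombination ℚ (fun g => graph F (x.comp (θ g : K →ₐ[ℂ] K))) C) lam tau = _
  rw [Finsupp.linearCombination_apply, Finsupp.sum, Finset.sum_apply, Finset.sum_apply]
  rfl

theorem reps_of [IsAlgClosed F] {d : ℕ} (hK : Algebra.trdeg ℂ K = (d : ℕ))
    (θ : G →* (K ≃ₐ[ℂ] K))
    (h : ∀ (V : Type) [AddCommGroup V] [Module ℚ V] (ρ : G →* (V →ₗ[ℚ] V)), Irred ρ →
      ∃ (L : Type) (_ : Field L) (_ : Algebra ℂ L) (x y : K →ₐ[ℂ] L) (C C' : G →₀ ℚ) (v : V),
        Algebra.trdeg ℂ L = (d : ℕ) ∧ x.toRingHom.Finite ∧ y.toRingHom.Finite ∧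
          Same F θ d x y C C' ∧
          (deg x : ℚ) • gramOn ρ C v ≠ (deg y : ℚ) • gramOn ρ C' v) :
    graph F (AlgHom.id ℂ K) ∈ Rat K K F d := by
  refine reps hK θ ?_
  intro V _ _ _
  letI : Module ℚ V := Module.compHom V (algebraMap ℚ (MonoidAlgebra ℚ G))
  have hq : ∀ (q : ℚ) (v : V), q • v = (algebraMap ℚ (MonoidAlgebra ℚ G) q) • v := fun q v => rfl
  have hsingle : ∀ (g : G) (q : ℚ) (v : V), (MonoidAlgebra.single g q : MonoidAlgebra ℚ G) • v =
      q • (MonoidAlgebra.single g 1 : MonoidAlgebra ℚ G) • v := by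
    intro g q v
    rw [hq, ← mul_smul, ← Algebra.smul_def, MonoidAlgebra.smul_single, smul_eq_mul, mul_one]
  let ρ : G →* (V →ₗ[ℚ] V) :=
    { toFun := fun g =>
        { toFun := fun v => (MonoidAlgebra.single g 1 : MonoidAlgebra ℚ G) • v
          map_add' := fun a b => smul_add _ _ _
          map_smul' := fun q v => by
            rw [RingHom.id_apply, hq, hq, ← mul_smul, ← mul_smul, Algebra.commutes] }
      map_one' := by
        ext v
        show (MonoidAlgebra.single 1 1 : MonoidAlgebra ℚ G) • v = v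
        rw [← MonoidAlgebra.one_def, one_smul]
      map_mul' := fun g k => by
        ext v
        show (MonoidAlgebra.single (g * k) 1 : MonoidAlgebra ℚ G) • v =
          (MonoidAlgebra.single g 1 : MonoidAlgebra ℚ G) •
            (MonoidAlgebra.single k 1 : MonoidAlgebra ℚ G) • v
        rw [← mul_smul, MonoidAlgebra.single_mul_single, mul_one] }
  have hρ : Irred ρ := by
    constructor
    · haveI := IsSimpleModule.nontrivial (MonoidAlgebra ℚ G) V
      exact exists_ne 0
    · intro W hW
      let W' : Submodule (MonoidAlgebra ℚ G) V :=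
        { carrier := W
          add_mem' := fun ha hb => W.add_mem ha hb
          zero_mem' := W.zero_mem
          smul_mem' := fun a w hw => by
            induction a using MonoidAlgebra.induction_linear with
            | zero => rw [zero_smul]; exact W.zero_mem
            | add a b ha hb => rw [add_smul]; exact W.add_mem ha hb
            | single k q =>
              show (MonoidAlgebra.single k q : MonoidAlgebra ℚ G) • w ∈ W
              rw [hsingle]
              exact W.smul_mem q (hW k w hw) }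
      rcases IsSimpleOrder.eq_bot_or_eq_top W' with h1 | h1
      · left
        rw [Submodule.eq_bot_iff]
        intro w hw
        have h2 : w ∈ W' := hw
        rw [h1] at h2
        exact h2
      · right
        rw [Submodule.eq_top_iff']
        intro w
        have h2 : w ∈ W' := by rw [h1]; trivial
        exact h2
  obtain ⟨L, _, _, x, y, C, C', v, hL, hx, hy, hrel, hv⟩ := h V ρ hρ
  have hgram : ∀ A : G →₀ ℚ, gram (MonoidAlgebra.ofCoeff A) • v = gramOn ρ A v := by
    intro A
    unfold gram gramOn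
    rw [Finset.sum_smul]
    refine Finset.sum_congr rfl fun k _ => ?_
    rw [Finset.sum_smul]
    refine Finset.sum_congr rfl fun g _ => ?_
    rw [hsingle]
    rfl
  have hsm : ∀ (q : ℚ) (a : MonoidAlgebra ℚ G), (q • a) • v = q • a • v := by
    intro q a
    rw [hq, ← mul_smul, ← Algebra.smul_def]
  refine ⟨_, gram_mem hL θ hx hy (MonoidAlgebra.ofCoeff C) (MonoidAlgebra.ofCoeff C') ?_, v, ?_⟩
  · rw [orb_eq, orb_eq]
    exact hrel
  · rw [sub_smul, hsm, hsm, hgram, hgram]
    exact sub_ne_zero.2 hv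

end

end Pool.Agent.H15.EM
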